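import Pool.Agent.H57.LH.Targets2

/-!
# Collapsing a type of elements to one point (row CPE)
-/

set_option autoImplicit false

namespace Pool.Agent.H73.LH

open Pool.Agent.H68.BP Pool.Agent.H58.SF Pool.Agent.H53.GC Pool.Agent.H53.NR
open Pool.Agent.H53.GR (Dm Ps)
open Pool.Agent.H57.AR (tp ty tpo pullO Ty OT HomEq El ElD FamR Od GmR INJ lft)
open Pool.Agent.H57.SO (Pal Col vt Bh Sbn fib sigF)
open Pool.Agent.H57.EQ (Cx T_CYF)
open Pool.Agent.H57.LCI (LocalCompletions Pre Realizes)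
open Pool.Agent.H44.KR (HB Amg Tyi Rz Rlz Clp LInj Prm TpOn RmL LcN Pl lr blk Fv kv RkI Kd JJ Yc
  IsTh Can Plf Pls)
open Pool.Agent.H57.LH Function

/-- types of subtuples -/
theorem cpe_comp {V W Z : Type} {ρ : Sig} {𝔹 : Str ρ V} {x y : W → V} (h : tp 𝔹 x = tp 𝔹 y)
    (z : Z → W) : tp 𝔹 (fun a => x (z a)) = tp 𝔹 (fun a => y (z a)) := by
  have h1 : ∀ a b, (x a = x b) = (y a = y b) := fun a b =>
    congrFun (congrFun (congrArg Prod.fst h) a) b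
  have h2 : ∀ (l : Fin ρ.m) (w : Fin (ρ.ar l) → W),
      𝔹 l (fun i => x (w i)) = 𝔹 l (fun i => y (w i)) :=
    fun l w => congrFun (congrFun (congrArg Prod.snd h) l) w
  refine Prod.ext ?_ ?_
  · funext a b
    exact h1 (z a) (z b)
  · funext l w
    exact h2 l (fun i => z (w i))

/-- types of elements from types of tuples -/
theorem cpe_ty {V W : Type} {ρ : Sig} {𝔹 : Str ρ V} {x y : W → V} (h : tp 𝔹 x = tp 𝔹 y)
    (w : W) : ty 𝔹 (x w) = ty 𝔹 (y w) := by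
  funext l
  exact congrFun (congrFun (congrArg Prod.snd h) l) (fun _ => w)

/-- equalities from types of tuples -/
theorem cpe_eq {V W : Type} {ρ : Sig} {𝔹 : Str ρ V} {x y : W → V} (h : tp 𝔹 x = tp 𝔹 y)
    {a b : W} (hab : y a = y b) : x a = x b := by
  have h1 : (x a = x b) = (y a = y b) := congrFun (congrFun (congrArg Prod.fst h) a) b
  rw [h1]
  exact hab

/-- there are finitely many types -/
theorem cpe_fin (ρ : Sig) : Finite (Ty ρ (Fin 2)) := by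
  have h1 : Finite (Str ρ (Fin 2)) := by
    unfold Str
    infer_instance
  have h2 : Finite (Fin 2 → Fin 2 → Prop) := inferInstance
  exact Finite.instProd

/-- step 1: collapsing to `e` -/
theorem cpe_one {V : Type} {σ ρ : Sig} {𝔸 : Str σ V} {𝔹 : Str ρ V} (hB : HB 𝔹) (hT : Tyi 𝔸 𝔹)
    {s : Fin ρ.m → Prop} (hC : ClpK 𝔸 𝔹 s) {e : V} (he : ty 𝔹 e = s) (W : Type) [Finite W]
    (G : W → V) : ∃ ψ : W → V, Cx 𝔸 (fun _ : Unit => G) ψ ∧
      (∀ w, ty 𝔹 (G w) = s → ψ w = e) ∧ ∀ w, ty 𝔹 (ψ w) = ty 𝔹 (G w) := by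
  obtain ⟨ψ₀, h1, h2, h3⟩ := hC (Option W) (fun o => o.elim e G)
  have h4 : ty 𝔹 (ψ₀ none) = ty 𝔹 e := h3 none
  obtain ⟨x', g1, g2, -⟩ := hB.amg (Option W) {none} ψ₀ (fun _ => e) ∅
    ⟨fun a ha b hb => by
        rw [Set.mem_singleton_iff] at ha hb
        subst ha
        subst hb
        exact ⟨fun _ => rfl, fun _ => rfl⟩,
      fun l z hz => by
        have hz' : z = fun _ => none := funext fun i => Set.mem_singleton_iff.1 (hz i)
        subst hz'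
        exact iff_of_eq (congrFun h4 l)⟩
  have g3 : x' none = e := g2 none rfl
  refine ⟨fun w => x' (some w), ?_, ?_, ?_⟩
  · intro l z hz
    refine hT l (fun a => ψ₀ (some (z a))) _ (h1 l (fun a => some (z a)) hz) ?_
    exact cpe_comp g1 (fun a => some (z a))
  · intro w hw
    have h5 : ψ₀ (some w) = ψ₀ none := h2 (some w) none hw he
    have h6 := cpe_eq g1 h5
    rw [g3] at h6
    exact h6
  · intro w
    exact (cpe_ty g1 (some w)).trans (h3 (some w))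

/-- the property of the finite set `F` -/
def CpeP {V : Type} {σ ρ : Sig} (𝔸 : Str σ V) (𝔹 : Str ρ V) (s : Fin ρ.m → Prop) (e : V)
    (F : Finset V) (sg : (Fin ρ.m → Prop) → Ty ρ (Fin 2)) : Prop :=
  ∃ ψ : V → V, (∀ (l : Fin σ.m) (z : Fin (σ.ar l) → V), (∀ i, z i ∈ F) → 𝔸 l z →
      𝔸 l (fun i => ψ (z i))) ∧
    (∀ x ∈ F, ty 𝔹 x = s → ψ x = e) ∧ (∀ x ∈ F, ty 𝔹 (ψ x) = ty 𝔹 x) ∧
    ∀ x ∈ F, tp 𝔹 ![ψ x, e] = sg (ty 𝔹 x)

/-- step 2: finite sets -/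
theorem cpe_two {V : Type} {σ ρ : Sig} {𝔸 : Str σ V} {𝔹 : Str ρ V} (hB : HB 𝔹) (hT : Tyi 𝔸 𝔹)
    (hR : RmV 𝔹) {s : Fin ρ.m → Prop} (hC : ClpK 𝔸 𝔹 s) {e : V} (he : ty 𝔹 e = s)
    (F : Finset V) : ∃ sg, CpeP 𝔸 𝔹 s e F sg := by
  classical
  set x : Fin F.card → V := fun i => (F.equivFin.symm i : V) with hx
  have hxi : Injective x := fun i j hij => F.equivFin.symm.injective (Subtype.ext hij)
  have := cpe_fin ρ
  obtain ⟨N, e', hN⟩ := hR F.card 1 (Ty ρ (Fin 2)) x hxi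
  obtain ⟨ψ₀, h1, h2, h3⟩ := cpe_one hB hT hC he (Fin N) e'
  obtain ⟨φ, p1, p2⟩ := hN (fun a => tp 𝔹 ![ψ₀ (a 0), e])
  have hxF : ∀ (v : V) (hv : v ∈ F), x (F.equivFin ⟨v, hv⟩) = v := fun v hv => by
    rw [hx]
    simp
  have hty : ∀ i, ty 𝔹 (e' (φ i)) = ty 𝔹 (x i) := fun i => cpe_ty p1 i
  let sg : (Fin ρ.m → Prop) → Ty ρ (Fin 2) := fun t =>
    if h : ∃ i : Fin F.card, ty 𝔹 (x i) = t then tp 𝔹 ![ψ₀ (φ h.choose), e]
    else tp 𝔹 ![e, e]
  have hsg : ∀ i, tp 𝔹 ![ψ₀ (φ i), e] = sg (ty 𝔹 (x i)) := by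
    intro i
    have hi : ∃ j : Fin F.card, ty 𝔹 (x j) = ty 𝔹 (x i) := ⟨i, rfl⟩
    have h5 : sg (ty 𝔹 (x i)) = tp 𝔹 ![ψ₀ (φ hi.choose), e] := dif_pos hi
    rw [h5]
    refine p2 (fun _ => i) (fun _ => hi.choose) ?_ (fun _ _ => ⟨fun h => absurd h (lt_irrefl _),
      fun h => absurd h (lt_irrefl _)⟩)
    funext l z
    exact (congrFun hi.choose_spec l).symm
  let ψ : V → V := fun v => if h : v ∈ F then ψ₀ (φ (F.equivFin ⟨v, h⟩)) else v
  have hψ : ∀ (v : V) (hv : v ∈ F), ψ v = ψ₀ (φ (F.equivFin ⟨v, hv⟩)) := fun v hv => dif_pos hv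
  refine ⟨sg, ψ, ?_, ?_, ?_, ?_⟩
  · intro l z hz hA
    have h6 : (fun i => ψ (z i)) = fun i => ψ₀ (φ (F.equivFin ⟨z i, hz i⟩)) :=
      funext fun i => hψ _ (hz i)
    rw [h6]
    refine h1 l (fun i => φ (F.equivFin ⟨z i, hz i⟩)) (fun _ => ?_)
    have h7 := cpe_comp p1 (fun i => F.equivFin ⟨z i, hz i⟩)
    have h8 : (fun i => x (F.equivFin ⟨z i, hz i⟩)) = z := funext fun i => hxF _ (hz i)
    refine hT l z _ hA (h7.trans ?_)
    rw [h8]
  · intro v hv hvs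
    rw [hψ v hv]
    refine h2 _ ?_
    rw [hty, hxF v hv]
    exact hvs
  · intro v hv
    rw [hψ v hv, h3, hty, hxF v hv]
  · intro v hv
    rw [hψ v hv, hsg, hxF v hv]

/-- (CPE) collapsing to one point -/
theorem pf_CPE : T_CPE := by
  classical
  intro V σ ρ 𝔸 𝔹 hB hT hR s hs hC
  obtain ⟨e, he⟩ := hs
  have hall : ∃ sg, ∀ F : Finset V, CpeP 𝔸 𝔹 s e F sg := by
    by_contra hcon
    push Not at hcon
    choose Fs hFs using hcon
    have h0 := cpe_fin ρ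
    have : Fintype ((Fin ρ.m → Prop) → Ty ρ (Fin 2)) := Fintype.ofFinite _
    obtain ⟨sg, ψ, q1, q2, q3, q4⟩ := cpe_two hB hT hR hC he (Finset.univ.biUnion Fs)
    have hsub : Fs sg ⊆ Finset.univ.biUnion Fs :=
      Finset.subset_biUnion_of_mem Fs (Finset.mem_univ sg)
    exact hFs sg ⟨ψ, fun l z hz => q1 l z fun i => hsub (hz i), fun x hx => q2 x (hsub hx),
      fun x hx => q3 x (hsub hx), fun x hx => q4 x (hsub hx)⟩
  obtain ⟨sg, hsg⟩ := hall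
  refine ⟨e, sg, he, fun W _ G => ?_⟩
  have hfin : (Set.range G).Finite := Set.finite_range G
  obtain ⟨ψ, q1, q2, q3, q4⟩ := hsg hfin.toFinset
  have hm : ∀ w, G w ∈ hfin.toFinset := fun w => by
    rw [Set.Finite.mem_toFinset]
    exact ⟨w, rfl⟩
  refine ⟨fun w => ψ (G w), fun l z hz => ?_, fun w hw => q2 _ (hm w) hw, fun w => q3 _ (hm w),
    fun w => q4 _ (hm w)⟩
  exact q1 l (fun a => G (z a)) (fun i => hm _) (hz ())

end Pool.Agent.H73.LH
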